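import Pool.Agent.N178.HW.StmC

set_option autoImplicit false
set_option linter.unusedSectionVars false

/-!
# The duality of the primitive idempotents (`S_DAT` of project GHC, part 2)
-/

namespace Pool.Agent.N821.GHC

open Matrix Module Pool.Agent.W437.HC Pool.Agent.W437.HD Pool.Agent.Y90 Pool.Agent.R915
open Pool.Agent.Y4.K (Pol Pr Reps Dat Iso Eqv br br_br br_mul' br_smul)
open Pool.Agent.Y4.H (Ct)
open Pool.Agent.W548.Odd

variable {g : ℕ} {Z : Matrix (Fin g) (Fin g) ℂ}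

theorem LZ_eq : Pool.Agent.Y90.LZ Z = Pool.Agent.Y4.H.LZ Z := by
  unfold Pool.Agent.Y90.LZ Pool.Agent.Y4.H.LZ
  rw [img_eq]

/-- The module of a primitive idempotent. -/
noncomputable abbrev UU (φ : Pr Z) : Submodule ℂ (Fin g ⊕ Fin g → ℂ) :=
  LinearMap.range (mulVecLin φ.e)

theorem mem_UU {φ : Pr Z} {x : Fin g ⊕ Fin g → ℂ} : x ∈ UU φ ↔ φ.e *ᵥ x = x := by
  constructor
  · rintro ⟨y, rfl⟩
    rw [mulVecLin_apply, mulVec_mulVec, φ.idem]
  · intro h
    exact ⟨x, h⟩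

theorem irr (h : PM Z) (φ : Pr Z) : IrS (Pool.Agent.Y90.LZ Z) (UU φ) := by
  have hst : Stab (Pool.Agent.Y90.LZ Z) (UU φ) := by
    intro X hX u hu
    rw [mem_UU] at hu ⊢
    have h1 := Pool.Agent.Y4.K.comm_LZ φ X (by rw [← LZ_eq]; exact hX)
    rw [mulVec_mulVec, ← h1, ← mulVec_mulVec, hu]
  refine ⟨?_, hst, ?_⟩
  · intro h0
    apply φ.ne
    ext i j
    have h1 : φ.e *ᵥ (Pi.single j 1) ∈ UU φ := ⟨_, rfl⟩
    rw [h0, Submodule.mem_bot] at h1
    have h2 := congrFun h1 i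
    rw [mulVec_single_one] at h2
    exact h2
  · intro W hW hs
    by_cases h0 : W = ⊥
    · exact Or.inl h0
    right
    obtain ⟨π, h1, h2, h3⟩ := h.cred W hs
    obtain ⟨p, hp⟩ : ∃ p : Matrix (Fin g ⊕ Fin g) (Fin g ⊕ Fin g) ℂ, ∀ v, p *ᵥ v = π v :=
      ⟨LinearMap.toMatrix' π, fun v => by rw [LinearMap.toMatrix'_mulVec]⟩
    have hct : Ct Z p := by
      intro X hX
      have hX' : X ∈ Pool.Agent.Y90.LZ Z := by rw [LZ_eq]; exact hX
      apply Matrix.toLin'.injective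
      apply LinearMap.ext
      intro v
      rw [toLin'_apply, toLin'_apply, ← mulVec_mulVec, ← mulVec_mulVec, hp, hp, h1 X hX']
    obtain ⟨lam, hlam⟩ := φ.prim p hct
    have hl1 : lam = 1 := by
      obtain ⟨w, hw, hw0⟩ := Submodule.exists_mem_ne_zero_of_ne_bot h0
      have h4 := mem_UU.1 (hW hw)
      have h5 := congrArg (fun Y => Y *ᵥ w) hlam
      simp only [← mulVec_mulVec, smul_mulVec, h4, hp, h3 w hw] at h5
      have h6 : (lam - 1) • w = 0 := by rw [sub_smul, one_smul, ← h5, sub_self]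
      exact sub_eq_zero.1 ((smul_eq_zero.1 h6).resolve_right hw0)
    apply le_antisymm hW
    intro u hu
    have h4 := mem_UU.1 hu
    have h5 := congrArg (fun Y => Y *ᵥ u) hlam
    simp only [← mulVec_mulVec, h4, hp, hl1, one_smul] at h5
    have h6 := mem_UU.1 (hW (h2 u))
    rw [h6] at h5
    rw [← h5]
    exact h2 u

/-- The invariant form on a selfdual module is alternating. -/
theorem sym' (h : PM Z) (M : Pol Z) (hL : LCF' Z) {φ : Pr Z}
    {a c : Matrix (Fin g ⊕ Fin g) (Fin g ⊕ Fin g) ℂ} (hi : Iso φ (M.bar φ) a c) : br a = a := by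
  have hOm : (Om g ℂ)ᵀ = -Om g ℂ := Om_transpose ℂ
  -- the sign
  obtain ⟨lam, hlam⟩ : ∃ lam : ℂ, br a = lam • a := by
    obtain ⟨lam, hlam⟩ := φ.prim (c * br a) (InCm.mul hi.cb (M.bar_mem hi.ca))
    refine ⟨lam, ?_⟩
    have h1 : (M.bar φ).e * br a = br a := by rw [Pol.bar_br, ← br_mul', hi.ra]
    have h2 : br a * φ.e = br a := by
      nth_rewrite 1 [← br_br φ.e]
      rw [← br_mul', ← M.bar_br φ, hi.la]
    calc br a = (M.bar φ).e * br a * φ.e := by rw [h1, h2]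
    _ = (a * c) * br a * φ.e := by rw [hi.ab]
    _ = (a * φ.e) * c * br a * φ.e := by rw [hi.ra]
    _ = a * (φ.e * (c * br a) * φ.e) := by noncomm_ring
    _ = lam • a := by rw [hlam, Matrix.mul_smul, hi.ra]
  have hsq : lam * lam = 1 := by
    have h1 : a = (lam * lam) • a := by
      nth_rewrite 1 [← br_br a]
      rw [hlam, br_smul, hlam, smul_smul]
    have ha0 : a ≠ 0 := by
      intro h0
      apply φ.ne
      rw [← hi.ba, h0, mul_zero]
    have h2 : (lam * lam - 1) • a = 0 := by rw [sub_smul, ← h1, one_smul, sub_self]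
    exact sub_eq_zero.1 ((smul_eq_zero.1 h2).resolve_right ha0)
  have hpm : (lam - 1) * (lam + 1) = 0 := by linear_combination hsq
  rcases mul_eq_zero.1 hpm with h1 | h1
  · rw [hlam, sub_eq_zero.1 h1, one_smul]
  exfalso
  have hneg : br a = -a := by rw [hlam, eq_neg_of_add_eq_zero_left h1, neg_one_smul]
  -- the form is symmetric
  have hsym : ∀ x y, ww (Om g ℂ) x (a *ᵥ y) = ww (Om g ℂ) y (a *ᵥ x) := by
    intro x y
    rw [ww_anti hOm, Pool.Agent.Y4.K.ww_mulVec_left, hneg, neg_mulVec]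
    unfold ww
    rw [mulVec_neg, dotProduct_neg, neg_neg]
  have hinv : ∀ X ∈ Pool.Agent.Y4.H.LZ Z, ∀ x y, ww (Om g ℂ) (X *ᵥ x) (a *ᵥ y) +
      ww (Om g ℂ) x (a *ᵥ (X *ᵥ y)) = 0 := by
    intro X hX x y
    have h2 : br X = -X := by
      unfold br
      rw [M.Om_LT hX, neg_mul, neg_neg, mul_assoc, Om_sq, mul_neg_one]
    rw [Pool.Agent.Y4.K.ww_mulVec_left, h2, mulVec_mulVec, mulVec_mulVec, hi.ca X hX, neg_mul,
      neg_mulVec]
    unfold ww
    rw [mulVec_neg, dotProduct_neg, neg_add_cancel]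
  have hU := irr h φ
  -- a vector orthogonal to the module
  have hrad : ∀ v ∈ UU φ, (∀ x ∈ UU φ, ww (Om g ℂ) v (a *ᵥ x) = 0) → v = 0 := by
    intro v hv hx
    refine M.radical (mem_UU.1 hv) fun z hz => ?_
    have h2 : z = a *ᵥ (c *ᵥ z) := by rw [mulVec_mulVec, hi.ab, hz]
    rw [h2]
    exact hx _ (mem_UU.2 (by rw [mulVec_mulVec, hi.lb]))
  have hpos : 0 < finrank ℂ (UU φ) := Submodule.one_le_finrank_iff.2 hU.1
  rcases Nat.lt_or_ge (finrank ℂ (UU φ)) 2 with hd | hd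
  · refine rz_line h hU (by omega) ?_
    rw [rz_du h hU.2.1 hU.2.1]
    refine ⟨(wwL (Om g ℂ)).compl₂ (mulVecLin a), ?_, ?_⟩
    · by_contra hcon
      push Not at hcon
      obtain ⟨v, hv, hv0⟩ := Submodule.exists_mem_ne_zero_of_ne_bot hU.1
      exact hv0 (hrad v hv fun x hx => hcon v hv x hx)
    · intro X hX u _ v _
      exact hinv X (by rw [← LZ_eq]; exact hX) u v
  · obtain ⟨D, -, N, hN, -, -, hr⟩ := ((loc2 h hL hU).1 hd).1
    have hNN : ∀ x, ww (Om g ℂ) (N *ᵥ x) (a *ᵥ x) = 0 := by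
      intro x
      have h2 := hinv N (by rw [← LZ_eq]; exact hN) x x
      rw [hsym x (N *ᵥ x)] at h2
      have h3 : (2 : ℂ) * ww (Om g ℂ) (N *ᵥ x) (a *ᵥ x) = 0 := by rw [two_mul]; exact h2
      exact (mul_eq_zero.1 h3).resolve_left two_ne_zero
    obtain ⟨w, hw0, hw⟩ := finrank_eq_one_iff'.1 hr
    obtain ⟨x0, hx0, hx0w⟩ := w.2
    have hx0w' : N *ᵥ x0 = (w : Fin g ⊕ Fin g → ℂ) := hx0w
    have hwU : (w : Fin g ⊕ Fin g → ℂ) ∈ UU φ := by
      rw [← hx0w']
      exact hU.2.1 N hN x0 hx0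
    have hl : ∀ x ∈ UU φ, ∃ l : ℂ, N *ᵥ x = l • (w : Fin g ⊕ Fin g → ℂ) := by
      intro x hx
      obtain ⟨l, hl⟩ := hw ⟨N *ᵥ x, x, hx, rfl⟩
      exact ⟨l, (congrArg Subtype.val hl).symm⟩
    have hone : ∀ (x : Fin g ⊕ Fin g → ℂ) (l : ℂ), l ≠ 0 → N *ᵥ x = l • (w : Fin g ⊕ Fin g → ℂ) →
        ww (Om g ℂ) (w : Fin g ⊕ Fin g → ℂ) (a *ᵥ x) = 0 := by
      intro x l hl0 hx
      have h2 := hNN x
      rw [hx] at h2
      have h3 : ww (Om g ℂ) (l • (w : Fin g ⊕ Fin g → ℂ)) (a *ᵥ x) =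
          l * ww (Om g ℂ) (w : Fin g ⊕ Fin g → ℂ) (a *ᵥ x) := by
        unfold ww
        rw [smul_dotProduct, smul_eq_mul]
      rw [h3] at h2
      exact (mul_eq_zero.1 h2).resolve_left hl0
    apply hw0
    apply Subtype.ext
    refine hrad _ hwU fun x hx => ?_
    obtain ⟨l, hl⟩ := hl x hx
    by_cases hl0 : l = 0
    · have h2 := hone x0 1 one_ne_zero (by rw [one_smul]; exact hx0w')
      have h3 := hone (x + x0) 1 one_ne_zero (by
        rw [mulVec_add, hl, hl0, zero_smul, zero_add, one_smul]; exact hx0w')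
      have h4 : ww (Om g ℂ) (w : Fin g ⊕ Fin g → ℂ) (a *ᵥ (x + x0)) =
          ww (Om g ℂ) (w : Fin g ⊕ Fin g → ℂ) (a *ᵥ x) +
            ww (Om g ℂ) (w : Fin g ⊕ Fin g → ℂ) (a *ᵥ x0) := by
        unfold ww
        rw [mulVec_add, mulVec_add, dotProduct_add]
      rw [h4, h2, add_zero] at h3
      exact h3
    · exact hone x l hl0 hl

theorem t_DAT : Pool.Agent.N178.HW.S_DAT := by
  intro g Z h M hL P _ ρ Rp
  classical
  choose b hb using fun p => Rp.surj (M.bar (ρ p))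
  have hbb : ∀ p, b (b p) = p := by
    intro p
    have h1 := hb (b p)
    have h2 := M.eqv_bar (hb p)
    rw [M.bar_bar] at h2
    exact Rp.inj _ _ (h1.trans h2)
  choose a c hac using hb
  let fe : P ≃ Fin (Fintype.card P) := Fintype.equivFin P
  have hiso : ∀ p, Iso (ρ p) (M.bar (ρ (b p))) (br (a p)) (br (c p)) := by
    intro p
    have h1 := (M.iso_bar (hac p)).symm
    rw [M.bar_bar] at h1
    exact h1
  have hself : ∀ p, b p = p → br (a p) = a p := by
    intro p hp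
    have h1 := hac p
    rw [hp] at h1
    exact sym' h M hL h1
  refine ⟨b, fun p => if fe p ≤ fe (b p) then a p else br (a (b p)),
    fun p => if fe p ≤ fe (b p) then c p else br (c (b p)), hbb, ?_, ?_⟩
  · intro p
    by_cases h : fe p ≤ fe (b p)
    · simp only [if_pos h]
      exact hac p
    · simp only [if_neg h]
      have h1 := hiso (b p)
      rw [hbb] at h1
      exact h1
  · intro p
    by_cases h : fe p ≤ fe (b p)
    · by_cases h' : fe (b p) ≤ fe (b (b p))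
      · have h2 : b p = p := by
          rw [hbb] at h'
          exact fe.injective (le_antisymm h' h)
        simp only [h2, le_refl, if_true]
        exact hself p h2
      · rw [if_pos h, if_neg h', hbb]
    · have h' : fe (b p) ≤ fe (b (b p)) := by
        rw [hbb]
        exact (not_le.1 h).le
      simp only [if_neg h, if_pos h']
      exact br_br _

end Pool.Agent.N821.GHC
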